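import Pool.Agent.N931.PN.Stm
import Pool.Agent.N144.EW.DetA
import Pool.Agent.H974R2.Plan4

/-!
# Project PN (helper931), WF (helper394): long excursions of faces near the free arc
-/

set_option autoImplicit false

namespace Pool.Agent.N394.PN.WF

open H974 H12S H389NS H984N H984P H342P Finset
open Pool.Agent.N116.EW Pool.Agent.N144.EW Pool.Agent.N931.PN

/-! ### Duality of edges and faces -/

/-- the vertex of the lattice at a face of the dual lattice -/
def up (u : Vtx) : Vtx := (u.1 + 1, u.2 + 1)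

theorem up_dsrc_dl (e : Edg) : up (dsrc (dl e)) = src e := by
  obtain ⟨x, y, _ | _⟩ := e <;> simp [up]

theorem up_dtgt_dl (e : Edg) : up (dtgt (dl e)) = tgt e := by
  obtain ⟨x, y, _ | _⟩ := e <;> simp [up]

theorem up_inj {u v : Vtx} (h : up u = up v) : u = v := by
  obtain ⟨a, b⟩ := u
  obtain ⟨a', b'⟩ := v
  simp only [up, Prod.mk.injEq] at h
  rw [Prod.mk.injEq]
  omega

theorem dreach_dl {F : Set Edg} {u v : Vtx} (h : DReach (dl '' F) u v) : Reach F (up u) (up v) := by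
  induction h with
  | refl => exact Reach.refl _ _
  | tail _ hs ih =>
    obtain ⟨_, ⟨g, hg, rfl⟩, hc⟩ := hs
    refine ih.trans (Adj.reach ⟨g, hg, ?_⟩)
    rcases hc with ⟨h1, h2⟩ | ⟨h1, h2⟩
    · left
      rw [← h1, ← h2, up_dsrc_dl, up_dtgt_dl]
      exact ⟨rfl, rfl⟩
    · right
      rw [← h1, ← h2, up_dsrc_dl, up_dtgt_dl]
      exact ⟨rfl, rfl⟩

theorem reach_dreach {F : Set Edg} {u v : Vtx} (h : Reach F (up u) v) :
    ∃ v', up v' = v ∧ DReach (dl '' F) u v' := by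
  induction h with
  | refl => exact ⟨u, rfl, DReach.refl _ _⟩
  | @tail w w' _ hs ih =>
    obtain ⟨v', hv, hr⟩ := ih
    obtain ⟨g, hg, hc⟩ := hs
    rcases hc with ⟨h1, h2⟩ | ⟨h1, h2⟩
    · refine ⟨dtgt (dl g), by rw [up_dtgt_dl, h2], hr.trans (DAdj.reach ⟨dl g, ⟨g, hg, rfl⟩, ?_⟩)⟩
      left
      exact ⟨up_inj (by rw [up_dsrc_dl, h1, hv]), rfl⟩
    · refine ⟨dsrc (dl g), by rw [up_dsrc_dl, h1], hr.trans (DAdj.reach ⟨dl g, ⟨g, hg, rfl⟩, ?_⟩)⟩
      right
      exact ⟨rfl, up_inj (by rw [up_dtgt_dl, h2, hv])⟩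

/-! ### Paths and boxes -/

theorem lastBox' {H : Set Edg} {c : Vtx} {d : ℕ} {x w : Vtx} (hx : sd x c ≤ d)
    (h : Reach H x w) : ∃ u, sd u c ≤ d ∧ Reach H x u ∧ Reach (H \ ↑(blk c d)) u w := by
  induction h with
  | refl => exact ⟨x, hx, Reach.refl _ _, Reach.refl _ _⟩
  | @tail w w' hxw hs ih =>
    obtain ⟨g, hg, hcase⟩ := hs
    by_cases hb : g ∈ blk c d
    · refine ⟨w', ?_, Relation.ReflTransGen.tail hxw ⟨g, hg, hcase⟩, Reach.refl _ _⟩
      rw [blk_iff] at hb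
      rcases hcase with ⟨h1, h2⟩ | ⟨h1, h2⟩
      · rw [← h2]; exact hb.2
      · rw [← h1]; exact hb.1
    · obtain ⟨u, hu1, hu0, hu2⟩ := ih
      exact ⟨u, hu1, hu0, hu2.tail ⟨g, ⟨hg, hb⟩, hcase⟩⟩

theorem firstOutD {H : Set Edg} {z x w : Vtx} {R : ℤ} (hw : R ≤ sd w z) (h : DReach H x w) :
    ∃ w', R ≤ sd w' z ∧ DReach (H ∩ {e | sd (dsrc e) z < R ∨ sd (dtgt e) z < R}) x w' := by
  induction h using Relation.ReflTransGen.head_induction_on with
  | refl => exact ⟨w, hw, DReach.refl _ _⟩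
  | @head x x' hxx' _ ih =>
    by_cases hb : R ≤ sd x z
    · exact ⟨x, hb, DReach.refl _ _⟩
    · obtain ⟨w', hw'1, hw'2⟩ := ih
      refine ⟨w', hw'1, Relation.ReflTransGen.head ?_ hw'2⟩
      obtain ⟨g, hg, hcase⟩ := hxx'
      refine ⟨g, ⟨hg, ?_⟩, hcase⟩
      rw [not_le] at hb
      rcases hcase with ⟨h1, h2⟩ | ⟨h1, h2⟩
      · left; rw [h1]; exact hb
      · right; rw [h2]; exact hb

theorem blk_of_face {e : Edg} {z : Vtx} {R : ℕ} (h : sd (dsrc e) z < R ∨ sd (dtgt e) z < R) :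
    e ∈ blk z R := by
  rw [blk_iff]
  obtain ⟨x, y, _ | _⟩ := e <;> rcases h with h | h <;>
  · simp only [sd_lt_iff, sd_le_iff, src_mk, tgt_false, tgt_true, dsrc_false, dsrc_true,
      dtgt_mk] at h ⊢
    omega

theorem blk_of_end {e : Edg} {z : Vtx} {R : ℕ} (h : sd (src e) z < R ∨ sd (tgt e) z < R) :
    e ∈ blk z R := by
  rw [blk_iff]
  obtain ⟨x, y, _ | _⟩ := e <;> rcases h with h | h <;>
  · simp only [sd_lt_iff, sd_le_iff, src_mk, tgt_false, tgt_true] at h ⊢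
    omega

theorem dl_blk {e : Edg} {z : Vtx} {R : ℕ} (h : e ∈ blk z R) : dl e ∈ blk z (R + 1) := by
  rw [blk_iff] at h ⊢
  rw [src_dl, tgt_dl]
  have := dface_near h.1 h.2
  push_cast
  exact this

/-! ### The rectangle -/

/-- faces outside of the rectangle -/
def Out (D : Dm) (f : Vtx) : Prop := f.1 < D.l ∨ D.r ≤ f.1 ∨ f.2 < 0 ∨ D.h ≤ f.2

theorem outer_of_out {D : Dm} {g : Edg} (hg : g ∈ D.edges) (hw : g ∉ D.wir) {f : Vtx}
    (hf : f = dsrc g ∨ f = dtgt g) (ho : Out D f) : f ∈ D.outer := by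
  obtain ⟨x, y, _ | _⟩ := g
  · simp only [Dm.edges, mem_RE_false] at hg
    simp only [Dm.wir, Set.mem_setOf_eq, Bool.false_eq_true, false_and, false_or, or_false,
      true_and] at hw
    simp only [Dm.outer, Set.mem_setOf_eq]
    rcases hf with rfl | rfl <;> simp only [Out, dsrc_false, dtgt_mk] at ho ⊢ <;> omega
  · simp only [Dm.edges, mem_RE_true] at hg
    simp only [Dm.wir, Set.mem_setOf_eq, Bool.true_eq_false, false_and, false_or, or_false,
      true_and] at hw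
    simp only [Dm.outer, Set.mem_setOf_eq]
    rcases hf with rfl | rfl <;> simp only [Out, dsrc_true, dtgt_mk] at ho ⊢ <;> omega

theorem out_of_not {D : Dm} {g : Edg} (hg : g ∉ D.edges) {f : Vtx}
    (hf : f = dsrc g ∨ f = dtgt g) : Out D f := by
  obtain ⟨x, y, _ | _⟩ := g
  · simp only [Dm.edges, mem_RE_false] at hg
    rcases hf with rfl | rfl <;> simp only [Out, dsrc_false, dtgt_mk] <;> omega
  · simp only [Dm.edges, mem_RE_true] at hg
    rcases hf with rfl | rfl <;> simp only [Out, dsrc_true, dtgt_mk] <;> omega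

theorem outer_sub {D : Dm} {G : Finset Edg} {f : Vtx} (h : f ∈ D.outer) : f ∈ D.dclu G :=
  ⟨f, h, DReach.refl _ _⟩

/-- from an outer face to infinity -/
theorem outer_arm {D : Dm} {z : Vtx} (hz : inR D.l D.r 0 D.h z) {f : Vtx} (hf : f ∈ D.outer)
    (n : ℕ) : ∃ f', (n : ℤ) ≤ sd f' z ∧ DReach {g | g ∉ D.edges} f f' := by
  obtain ⟨⟨z1, z2⟩, z3, z4⟩ := hz
  obtain ⟨x, y⟩ := f
  rcases hf with ⟨h1, _⟩ | ⟨h1, _⟩ | ⟨h1, _⟩
  · simp only at h1
    have key : ∀ n : ℕ, DReach {g | g ∉ D.edges} (x, y) (x, y - n) := by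
      intro n
      induction n with
      | zero => simpa using DReach.refl _ _
      | succ n ih =>
        refine ih.trans (DAdj.reach ⟨(x, y - n, true), ?_, Or.inr ⟨?_, rfl⟩⟩)
        · simp only [Set.mem_setOf_eq, Dm.edges, mem_RE_true]
          omega
        · simp only [dsrc_true, Prod.mk.injEq, true_and]
          push_cast
          ring
    refine ⟨_, ?_, key n⟩
    rw [le_sd_iff]
    simp only
    omega
  · simp only at h1
    have key : ∀ n : ℕ, DReach {g | g ∉ D.edges} (x, y) (x + n, y) := by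
      intro n
      induction n with
      | zero => simpa using DReach.refl _ _
      | succ n ih =>
        refine ih.trans (DAdj.reach ⟨(x + n + 1, y, false), ?_, Or.inl ⟨?_, ?_⟩⟩)
        · simp only [Set.mem_setOf_eq, Dm.edges, mem_RE_false]
          omega
        · simp only [dsrc_false, Prod.mk.injEq, and_true]
          ring
        · simp only [dtgt_mk, Prod.mk.injEq, and_true]
          push_cast
          ring
    refine ⟨_, ?_, key n⟩
    rw [le_sd_iff]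
    simp only
    omega
  · simp only at h1
    have key : ∀ n : ℕ, DReach {g | g ∉ D.edges} (x, y) (x, y + n) := by
      intro n
      induction n with
      | zero => simpa using DReach.refl _ _
      | succ n ih =>
        refine ih.trans (DAdj.reach ⟨(x, y + n + 1, true), ?_, Or.inl ⟨?_, ?_⟩⟩)
        · simp only [Set.mem_setOf_eq, Dm.edges, mem_RE_true]
          omega
        · simp only [dsrc_true, Prod.mk.injEq, true_and]
          ring
        · simp only [dtgt_mk, Prod.mk.injEq, true_and]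
          push_cast
          ring
    refine ⟨_, ?_, key n⟩
    rw [le_sd_iff]
    simp only
    omega

/-- the closed edges -/
def C2 (D : Dm) (F G : Finset Edg) : Set Edg :=
  {g | g ∉ D.edges ∨ (g ∈ D.edges ∧ g ∉ D.cfg G) ∨
    (g ∈ D.edges ∧ g ∉ D.cfg F ∧ dsrc g ∉ D.dclu G ∧ dtgt g ∉ D.dclu G)}

theorem C2_closed {D : Dm} {F G : Finset Edg} {f f' : Vtx} (h : DReach (C2 D F G) f f')
    (hf : f ∈ D.dclu G ∨ Out D f) : f' ∈ D.dclu G ∨ Out D f' := by
  induction h with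
  | refl => exact hf
  | @tail w w' _ hs ih =>
    obtain ⟨g, hg, hc⟩ := hs
    have hw : w = dsrc g ∨ w = dtgt g := by
      rcases hc with ⟨h1, _⟩ | ⟨_, h1⟩
      · exact Or.inl h1.symm
      · exact Or.inr h1.symm
    have hw' : w' = dsrc g ∨ w' = dtgt g := by
      rcases hc with ⟨_, h1⟩ | ⟨h1, _⟩
      · exact Or.inr h1.symm
      · exact Or.inl h1.symm
    rcases hg with hg | ⟨hg1, hg2⟩ | ⟨hg1, hg2, hg3, hg4⟩
    · exact Or.inr (out_of_not hg hw')
    · left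
      have hwK : w ∈ D.dclu G := by
        rcases ih with h1 | h1
        · exact h1
        · exact outer_sub (outer_of_out hg1 (fun h => hg2 (Or.inr h)) hw h1)
      obtain ⟨g0, hg0, hr⟩ := hwK
      exact ⟨g0, hg0, hr.trans (DAdj.reach ⟨g, ⟨hg1, hg2⟩, hc⟩)⟩
    · exfalso
      have hwK : w ∈ D.dclu G := by
        rcases ih with h1 | h1
        · exact h1
        · exact outer_sub (outer_of_out hg1 (fun h => hg2 (Or.inr h)) hw h1)
      rcases hw with h1 | h1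
      · exact hg3 (h1 ▸ hwK)
      · exact hg4 (h1 ▸ hwK)

theorem bdB_bdR {c : Vtx} {m : ℕ} {w : Vtx} (h : w ∈ bdB c m) :
    w ∈ bdR (c.1 - (m : ℤ)) (c.1 + m) (c.2 - m) (c.2 + m) := by
  obtain ⟨h1, h2, h3⟩ := h
  rw [abs_le] at h1 h2
  refine ⟨⟨⟨by omega, by omega⟩, by omega, by omega⟩, ?_⟩
  rcases h3 with h3 | h3
  · rcases abs_choice (w.1 - c.1) with h4 | h4 <;> omega
  · rcases abs_choice (w.2 - c.2) with h4 | h4 <;> omega

/-- an arm of open edges in the annulus -/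
theorem arm_of {P : Set Edg} {G : Finset Edg} {z x w : Vtx} {d R : ℕ} (hP : P ⊆ ↑G)
    (hx : sd x z ≤ d) (hw : (R : ℤ) ≤ sd w z) (h : Reach P x w) :
    ∃ u w', Reach P x u ∧ sd u z ≤ d ∧ (R : ℤ) ≤ sd w' z ∧ Reach (oE z d R G) u w' := by
  obtain ⟨w', h1, h2⟩ := firstOut hw h
  obtain ⟨u, h3, h4, h5⟩ := lastBox' hx h2
  refine ⟨u, w', h4.mono Set.inter_subset_left, h3, h1, h5.mono ?_⟩
  rintro g ⟨⟨h6, h7⟩, h8⟩
  refine ⟨hP h6, ?_⟩
  rw [Finset.mem_coe, AN, Finset.mem_sdiff]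
  exact ⟨blk_of_end h7, h8⟩

theorem main : S_WF := by
  intro D hD G B hG z d R ρ hN hd hdR hρ hB hwf hbad
  obtain ⟨e, heG, heF, x, y, z', hxe, hyz, hx, hyc, hz', w, hw, hzw⟩ := hbad
  have hzin := hN.1
  have heE : e ∈ D.edges := hG heG
  have heB : e ∈ B := by
    by_contra h
    exact heF (Or.inl (by rw [Finset.mem_coe, Finset.mem_sdiff]; exact ⟨heG, h⟩))
  have hed : e ∈ blk z d := hB heB
  have hed' := blk_iff.1 hed
  have hfaces := dface_near hed'.1 hed'.2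
  have hye : y = dsrc e ∨ y = dtgt e := hyz.imp And.left And.left
  have hze : z' = dsrc e ∨ z' = dtgt e := (hyz.imp And.right And.right).symm
  have hyd : sd y z ≤ d + 1 := by rcases hye with h | h <;> rw [h]; exacts [hfaces.1, hfaces.2]
  have hzd : sd z' z ≤ d + 1 := by rcases hze with h | h <;> rw [h]; exacts [hfaces.1, hfaces.2]
  have hwz : (R : ℤ) + 3 ≤ sd w z := by
    have hρ' : (R : ℤ) + d + 4 ≤ ρ := by exact_mod_cast hρ
    rw [le_sd_iff] at hw ⊢
    rw [sd_le_iff] at hzd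
    omega
  have hF0 : ∀ g, g ∈ G → g ∉ blk z d → g ∈ G \ B := fun g h1 h2 =>
    Finset.mem_sdiff.2 ⟨h1, fun h => h2 (hB h)⟩
  have hdR' : (d : ℤ) + 4 ≤ R := by exact_mod_cast hdR
  refine ⟨?_, ?_⟩
  · -- the two open arms
    have hR1 : ((R + 1 : ℕ) : ℤ) = R + 1 := by push_cast; ring
    obtain ⟨H, hH⟩ : ∃ H : Set Edg, H = dl '' (C2 D (G \ B) G) ∩ ↑(blk z (R + 1)) := ⟨_, rfl⟩
    have harm : ∀ f, f = dsrc e ∨ f = dtgt e → ∃ w ∈ bdB z (R + 1), Reach H f w := by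
      have h1 : ∃ w ∈ bdB z (R + 1), Reach H y w := by
        obtain ⟨g0, hg0, hr⟩ := hyc
        obtain ⟨f', hf', hr'⟩ := outer_arm hzin hg0 (R + 1)
        have h2 : DReach (C2 D (G \ B) G) y f' := by
          refine DReach.trans (hr.symm.mono ?_) (hr'.mono ?_)
          · rintro g ⟨h1, h2⟩
            exact Or.inr (Or.inl ⟨h1, h2⟩)
          · intro g hg
            exact Or.inl hg
        rw [hH]
        exact exitBox hf' (reach_dl.2 h2) (by omega)
      have h2 : ∃ w ∈ bdB z (R + 1), Reach H z' w := by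
        have h3 : DReach (C2 D (G \ B) G) z' w := hzw.mono fun g hg => Or.inr (Or.inr hg)
        rw [hH]
        exact exitBox (by omega) (reach_dl.2 h3) (by omega)
      intro f hf
      rcases hyz with ⟨h3, h4⟩ | ⟨h3, h4⟩ <;> rcases hf with h5 | h5
      · rw [h5, ← h3]; exact h1
      · rw [h5, ← h4]; exact h2
      · rw [h5, ← h4]; exact h2
      · rw [h5, ← h3]; exact h1
    have heH : dl e ∉ H := by
      rw [hH]
      rintro ⟨⟨g, hg, hge⟩, _⟩
      have : g = e := dl.injective hge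
      rw [this] at hg
      rcases hg with h | ⟨_, h⟩ | ⟨_, _, h1, h2⟩
      · exact h heE
      · exact h (Or.inl heG)
      · rcases hye with h3 | h3
        · exact h1 (h3 ▸ hyc)
        · exact h2 (h3 ▸ hyc)
    have hnr : ¬ Reach H (src (dl e)) (tgt (dl e)) := by
      intro h
      have h0 : DReach (C2 D (G \ B) G) (dsrc e) (dtgt e) := by
        rw [src_dl, tgt_dl] at h
        refine reach_dl.1 (h.mono ?_)
        rw [hH]
        exact Set.inter_subset_left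
      have h1 : DReach (C2 D (G \ B) G) y z' := by
        rcases hyz with ⟨h3, h4⟩ | ⟨h3, h4⟩
        · rw [h3, h4]; exact h0
        · rw [h3, h4]; exact h0.symm
      rcases C2_closed h1 (Or.inl hyc) with h2 | h2
      · exact hz' h2
      · exact hz' (outer_sub (outer_of_out heE (fun h => heF (Or.inr h)) hze h2))
    have hHs : H ⊆ ↑(RE (z.1 - ((R + 1 : ℕ) : ℤ)) (z.1 + ((R + 1 : ℕ) : ℤ))
        (z.2 - ((R + 1 : ℕ) : ℤ)) (z.2 + ((R + 1 : ℕ) : ℤ))) := by
      rw [hH]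
      exact Set.inter_subset_right
    have heR : dl e ∈ RE (z.1 - ((R + 1 : ℕ) : ℤ)) (z.1 + ((R + 1 : ℕ) : ℤ))
        (z.2 - ((R + 1 : ℕ) : ℤ)) (z.2 + ((R + 1 : ℕ) : ℤ)) := by
      have h1 : e ∈ blk z R := by
        rw [blk_iff]
        exact ⟨by omega, by omega⟩
      exact dl_blk h1
    have hu : ∃ w ∈ bdR (z.1 - ((R + 1 : ℕ) : ℤ)) (z.1 + ((R + 1 : ℕ) : ℤ))
        (z.2 - ((R + 1 : ℕ) : ℤ)) (z.2 + ((R + 1 : ℕ) : ℤ)), Reach H (src (dl e)) w := by
      obtain ⟨w, h1, h2⟩ := harm (dsrc e) (Or.inl rfl)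
      exact ⟨w, bdB_bdR h1, by rw [src_dl]; exact h2⟩
    have hv : ∃ w ∈ bdR (z.1 - ((R + 1 : ℕ) : ℤ)) (z.1 + ((R + 1 : ℕ) : ℤ))
        (z.2 - ((R + 1 : ℕ) : ℤ)) (z.2 + ((R + 1 : ℕ) : ℤ)), Reach H (tgt (dl e)) w := by
      obtain ⟨w, h1, h2⟩ := harm (dtgt e) (Or.inr rfl)
      exact ⟨w, bdB_bdR h1, by rw [tgt_dl]; exact h2⟩
    -- the open edges
    obtain ⟨P, hP⟩ : ∃ P : Set Edg, P = {g | dl g ∈ blk z (R + 1) ∧ g ∉ C2 D (G \ B) G ∧ g ≠ e} :=
      ⟨_, rfl⟩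
    have hPdl : ((↑(RE (z.1 - ((R + 1 : ℕ) : ℤ)) (z.1 + ((R + 1 : ℕ) : ℤ))
        (z.2 - ((R + 1 : ℕ) : ℤ)) (z.2 + ((R + 1 : ℕ) : ℤ))) \ H) \ {dl e} : Set Edg) = dl '' P := by
      ext g
      obtain ⟨g', rfl⟩ := dl.surjective g
      rw [Set.mem_image_equiv, Equiv.symm_apply_apply, hP, hH]
      constructor
      · rintro ⟨⟨h1, h2⟩, h3⟩
        refine ⟨h1, fun h => h2 ⟨⟨g', h, rfl⟩, h1⟩, fun h => h3 ?_⟩
        rw [h]
        exact rfl
      · rintro ⟨h1, h2, h3⟩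
        refine ⟨⟨h1, ?_⟩, fun h => h3 (dl.injective h)⟩
        rintro ⟨⟨g'', h4, h5⟩, _⟩
        exact h2 (dl.injective h5 ▸ h4)
    have hPG : P ⊆ ↑G := by
      intro g hg
      rw [hP] at hg
      obtain ⟨h1, h2, h3⟩ := hg
      have h4 : g ∈ D.edges := by
        by_contra h
        exact h2 (Or.inl h)
      have h5 : g ∈ D.cfg G := by
        by_contra h
        exact h2 (Or.inr (Or.inl ⟨h4, h⟩))
      rcases h5 with h5 | h5
      · exact h5
      · exfalso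
        have h6 := hwf (src g) ⟨g, h5, Or.inl rfl⟩
        rw [blk_iff, tgt_dl] at h1
        have h7 := h1.2
        have e1 : dtgt g = src g := rfl
        rw [e1] at h7
        omega
    have hoP : oE z d R G ⊆ P := by
      rintro g ⟨h1, h2⟩
      rw [Finset.mem_coe, AN, Finset.mem_sdiff] at h2
      rw [hP]
      refine ⟨dl_blk h2.1, ?_, fun h => h2.2 (h ▸ hed)⟩
      rintro (h3 | ⟨_, h3⟩ | ⟨_, h3, _⟩)
      · exact h3 (hG h1)
      · exact h3 (Or.inl h1)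
      · exact h3 (Or.inl (by exact_mod_cast hF0 g h1 h2.2))
    -- the arms
    have hfar : ∀ f : Vtx, f ∈ outF (z.1 - ((R + 1 : ℕ) : ℤ)) (z.1 + ((R + 1 : ℕ) : ℤ))
        (z.2 - ((R + 1 : ℕ) : ℤ)) (z.2 + ((R + 1 : ℕ) : ℤ)) → (R : ℤ) ≤ sd (up f) z := by
      intro f hf
      rw [le_sd_iff]
      simp only [up]
      rcases hf with h | h | h | h <;> omega
    obtain ⟨g1, hg1, hr1⟩ := dual_arm hHs heR heH hu hv hnr (Or.inl ⟨rfl, rfl⟩)
    obtain ⟨g2, hg2, hr2⟩ := dual_arm hHs heR heH hu hv hnr (Or.inr ⟨rfl, rfl⟩)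
    have hsep := dual_sep hHs heR heH hu hv
    rw [hPdl] at hr1 hr2 hsep
    have hr1' := dreach_dl hr1
    have hr2' := dreach_dl hr2
    rw [up_dsrc_dl] at hr1'
    rw [up_dtgt_dl] at hr2'
    obtain ⟨u, w1, a1, a2, a3, a4⟩ := arm_of (d := d) hPG hed'.1 (hfar g1 hg1) hr1'
    obtain ⟨u', w1', b1, b2, b3, b4⟩ := arm_of (d := d) hPG hed'.2 (hfar g2 hg2) hr2'
    refine ⟨u, w1, u', w1', ⟨a2, a3, a4⟩, ⟨b2, b3, b4⟩, fun h => hsep ?_⟩
    have h1 : Reach P (up (dsrc (dl e))) (tgt e) := by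
      rw [up_dsrc_dl]
      exact (a1.trans (h.mono hoP)).trans b1.symm
    obtain ⟨v', hv1, hv2⟩ := reach_dreach h1
    have h2 : v' = dtgt (dl e) := up_inj (by rw [hv1, up_dtgt_dl])
    rw [← h2]
    exact hv2
  · -- the dual arm
    have hwR : (R : ℤ) ≤ sd w z := by omega
    obtain ⟨w', h1, h2⟩ := firstOutD hwR hzw
    obtain ⟨f, h3, h4⟩ := lastBoxD hzd h2
    refine ⟨f, w', h3, h1, h4.mono ?_⟩
    rintro g ⟨⟨⟨h5, h6, _, _⟩, h7⟩, h8⟩
    refine ⟨h5, fun h => h6 (Or.inl (by exact_mod_cast hF0 g h h8)), ?_⟩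
    rw [AN, Finset.mem_sdiff]
    exact ⟨blk_of_face h7, h8⟩

end Pool.Agent.N394.PN.WF
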