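import Pool.Agent.N931.PN.Stm3

/-!
# Project PN (helper931), LG3 (helper394): three arms for a block near the boundary
-/

set_option autoImplicit false

namespace Pool.Agent.N394.PN.LG3

open H974 H12S H389NS H984N H984P H342P Finset
open Pool.Agent.N116.EW Pool.Agent.N931.PN

theorem main : S_SIDE → S_VF → S_WF → S_VW → S_WW → S_A1 → S_BKH → S_LG3 := by
  intro hside hvf hwf hvw hww ha1 hbk κ hκ
  obtain ⟨c1, hc1, hside⟩ := hside κ hκ
  obtain ⟨C2, c2, hC2, hc2, ha1⟩ := ha1 κ hκ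
  refine ⟨16 + 4 * C2 ^ 3, min c1 c2, by positivity, lt_min hc1 hc2, ?_⟩
  intro n D hn hS z B d ρ hz hd hbd hB hdρ hρq
  have hok : H974.Ok (fun _ : Edg => (1 / 2 : ℝ)) := fun _ => by norm_num
  have hd0 : (0 : ℝ) < d := by exact_mod_cast hd
  have hρ0 : (0 : ℝ) < ρ := by exact_mod_cast (by omega : 0 < ρ)
  show Pr (fun _ => (1 / 2 : ℝ)) D.edges (LG D B ρ) ≤ _
  by_cases hcase : ρ ≤ 16 * d
  · refine (Pr_le_one hok _ _).trans ?_
    have h1 : (ρ : ℝ) ≤ 16 * d := by exact_mod_cast hcase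
    have h2 : 1 ≤ 16 * ((d : ℝ) / ρ) := by
      rw [← mul_div_assoc, le_div_iff₀ hρ0]
      linarith
    have h3 : 0 ≤ 4 * C2 ^ 3 * ((d : ℝ) / ρ) := by positivity
    nlinarith
  · push Not at hcase
    obtain ⟨R, hR⟩ : ∃ R : ℕ, R = ρ / 2 := ⟨_, rfl⟩
    have hR1 : d + 4 ≤ R := by omega
    have hR2 : R + d + 4 ≤ ρ := by omega
    have hR3 : d ≤ R := by omega
    have hRρ : (R : ℝ) ≤ ρ := by exact_mod_cast (by omega : R ≤ ρ)
    have hq0 : 0 < (qd D z : ℝ) := by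
      by_contra hcon
      push Not at hcon
      have : min c1 c2 * (qd D z : ℝ) ≤ 0 :=
        mul_nonpos_of_nonneg_of_nonpos (lt_min hc1 hc2).le hcon
      linarith
    have hq1 : (R : ℝ) ≤ c1 * qd D z :=
      (hRρ.trans hρq).trans (mul_le_mul_of_nonneg_right (min_le_left _ _) hq0.le)
    have hq2 : (R : ℝ) ≤ c2 * qd D z :=
      (hRρ.trans hρq).trans (mul_le_mul_of_nonneg_right (min_le_right _ _) hq0.le)
    obtain ⟨hN, hfar⟩ := hside n D hn hS z d R hz hd hbd hR3 hq1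
    obtain ⟨hO, hD⟩ := ha1 n D hn hS z d R hz hd hbd hR3 hq2
    obtain ⟨hb1, hb2⟩ := hbk D z d R
    have hR0 : (0 : ℝ) < R := by exact_mod_cast (by omega : 0 < R)
    have hP1 := Pr_nonneg hok D.edges (OAr z d R)
    have hP2 := Pr_nonneg hok D.edges (DAr D z d R)
    obtain ⟨t, ht⟩ : ∃ t : ℝ, t = C2 * ((d : ℝ) / R) ^ (1 / 3 : ℝ) := ⟨_, rfl⟩
    have ht0 : 0 ≤ t := by rw [ht]; positivity
    have ht3 : t ^ 3 = C2 ^ 3 * ((d : ℝ) / R) := by
      have e : (((d : ℝ) / R) ^ (1 / 3 : ℝ)) ^ 3 = (d : ℝ) / R := by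
        rw [← Real.rpow_natCast, ← Real.rpow_mul (by positivity)]
        norm_num
      rw [ht, mul_pow, e]
    rw [← ht] at hO hD
    have hfin : t ^ 3 ≤ (16 + 4 * C2 ^ 3) * ((d : ℝ) / ρ) := by
      have h1 : (ρ : ℝ) ≤ 4 * R := by exact_mod_cast (by omega : ρ ≤ 4 * R)
      have h2 : (d : ℝ) / R ≤ 4 * (d / ρ) := by
        rw [← mul_div_assoc, div_le_div_iff₀ hR0 hρ0]
        nlinarith
      have h3 : 0 ≤ 16 * ((d : ℝ) / ρ) := by positivity
      have h4 := mul_le_mul_of_nonneg_left h2 (by positivity : 0 ≤ C2 ^ 3)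
      rw [ht3]
      linarith
    rcases hfar with hfar | hfar
    · have h1 : Pr (fun _ => (1 / 2 : ℝ)) D.edges (LG D B ρ) ≤
          Pr (fun _ => (1 / 2 : ℝ)) D.edges (fun F => OO z d R F ∧ DAr D z d R F) := by
        refine Pr_mono hok fun F hF h => ?_
        rcases h with h | h
        · exact hvf D hS.ok F B hF z d R ρ hN hd hR1 hR2 hB hfar h
        · exact hwf D hS.ok F B hF z d R ρ hN hd hR1 hR2 hB hfar h
      have h2 : Pr (fun _ => (1 / 2 : ℝ)) D.edges (OAr z d R) ^ 2 *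
          Pr (fun _ => (1 / 2 : ℝ)) D.edges (DAr D z d R) ≤ t ^ 2 * t :=
        mul_le_mul (pow_le_pow_left₀ hP1 hO 2) hD hP2 (by positivity)
      calc _ ≤ _ := h1
        _ ≤ _ := hb1
        _ ≤ t ^ 2 * t := h2
        _ = t ^ 3 := by ring
        _ ≤ _ := hfin
    · have h1 : Pr (fun _ => (1 / 2 : ℝ)) D.edges (LG D B ρ) ≤
          Pr (fun _ => (1 / 2 : ℝ)) D.edges (fun F => DD D z d R F ∧ OAr z d R F) := by
        refine Pr_mono hok fun F hF h => ?_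
        rcases h with h | h
        · exact hvw D hS.ok F B hF z d R ρ hN hd hR1 hR2 hB hfar h
        · exact hww D hS.ok F B hF z d R ρ hN hd hR1 hR2 hB hfar h
      have h2 : Pr (fun _ => (1 / 2 : ℝ)) D.edges (DAr D z d R) ^ 2 *
          Pr (fun _ => (1 / 2 : ℝ)) D.edges (OAr z d R) ≤ t ^ 2 * t :=
        mul_le_mul (pow_le_pow_left₀ hP2 hD 2) hO hP1 (by positivity)
      calc _ ≤ _ := h1
        _ ≤ _ := hb2
        _ ≤ t ^ 2 * t := h2
        _ = t ^ 3 := by ring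
        _ ≤ _ := hfin

end Pool.Agent.N394.PN.LG3
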